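import Pool.Agent.H15.AKP.Base

set_option autoImplicit false

/-!
# Bipartite graphs whose choice number exceeds every multiple of the logarithm of the degree
-/

namespace Pool.Agent.Results.MP_4e8966_co.PolylogPower

/-- `G` can be properly coloured from the lists `L`. -/
def ColourableFrom {V : Type} (G : SimpleGraph V) (L : V → Finset ℕ) : Prop :=
  ∃ f : V → ℕ, (∀ v, f v ∈ L v) ∧ ∀ u v, G.Adj u v → f u ≠ f v

/-- The list chromatic number of `G`. -/
noncomputable def ch {V : Type} (G : SimpleGraph V) : ℕ :=
  sInf {k : ℕ | ∀ L : V → Finset ℕ, (∀ v, k ≤ (L v).card) → ColourableFrom G L}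

lemma ch_set_nonempty {V : Type} [Fintype V] (G : SimpleGraph V) :
    {k : ℕ | ∀ L : V → Finset ℕ, (∀ v, k ≤ (L v).card) → ColourableFrom G L}.Nonempty := by
  classical
  refine ⟨Fintype.card V, fun L hL => ?_⟩
  have h := (Finset.all_card_le_biUnion_card_iff_exists_injective (fun v : V => L v)).1 (by
    intro s
    rcases s.eq_empty_or_nonempty with rfl | ⟨v, hv⟩
    · simp
    · calc s.card ≤ Fintype.card V := Finset.card_le_univ s
        _ ≤ (L v).card := hL v
        _ ≤ (s.biUnion fun v => L v).card :=
            Finset.card_le_card (Finset.subset_biUnion_of_mem (fun v => L v) hv))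
  obtain ⟨f, hf, hf'⟩ := h
  exact ⟨f, hf', fun u v huv e => huv.ne (hf e)⟩

/-- The disjoint union of `G` and a star with `D` edges. -/
def withStar {V : Type} (G : SimpleGraph V) (D : ℕ) : SimpleGraph (V ⊕ Option (Fin D)) where
  Adj
    | .inl u, .inl v => G.Adj u v
    | .inr a, .inr b => a.isSome ≠ b.isSome
    | _, _ => False
  symm := ⟨by
    rintro (u | a) (v | b) h
    · exact G.adj_symm h
    · exact h
    · exact h
    · exact fun e => h e.symm⟩
  loopless := ⟨by
    rintro (u | a) h
    · exact G.loopless.irrefl u h
    · exact h rfl⟩

theorem result : ∃ D₀ : ℕ, ∀ D : ℕ, D₀ ≤ D →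
    ∃ (V : Type) (_ : Fintype V) (G : SimpleGraph V) (_ : DecidableRel G.Adj),
      G.IsBipartite ∧ G.maxDegree = D ∧ Real.log D ^ (29 / 28 : ℝ) < (ch G : ℝ) := by
  obtain ⟨D₀, h0⟩ := Pool.Agent.H15.AKP.choice
  refine ⟨max D₀ 1, fun D hD => ?_⟩
  have hD1 : 1 ≤ D := le_trans (le_max_right _ _) hD
  obtain ⟨C, hC, h1, h2⟩ := h0 D (le_trans (le_max_left _ _) hD)
  obtain ⟨K, hK1, hK2, V, _, G, _, L, hcol, hlog, hdeg2, hL, hno⟩ :=
    Pool.Agent.H15.AKP.base C hC
  have hCR : (0 : ℝ) < (C : ℝ) := by exact_mod_cast hC
  have hle : G.maxDegree ≤ D := by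
    have hK2' : (K : ℝ) ≤ 2227374 ^ 4 * (C : ℝ) ^ 28 := by exact_mod_cast hK2
    have h3 : (C : ℝ) * Real.log (G.maxDegree : ℝ) ≤ (C : ℝ) * Real.log D := by
      have : (2227374 : ℝ) ^ 4 * (C : ℝ) ^ 28 = C * (2227374 ^ 4 * (C : ℝ) ^ 27) := by ring
      have h4 : (C : ℝ) * (2227374 ^ 4 * (C : ℝ) ^ 27) ≤ C * Real.log D :=
        mul_le_mul_of_nonneg_left h1 hCR.le
      linarith
    have h5 := le_of_mul_le_mul_left h3 hCR
    have h6 : (0 : ℝ) < (G.maxDegree : ℝ) := by exact_mod_cast (by omega : 0 < G.maxDegree)
    have h7 : (0 : ℝ) < (D : ℝ) := by exact_mod_cast hD1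
    exact_mod_cast (Real.log_le_log_iff h6 h7).1 h5
  classical
  refine ⟨V ⊕ Option (Fin D), inferInstance, withStar G D, Classical.decRel _, ?_, ?_, ?_⟩
  · obtain ⟨c⟩ := hcol
    refine ⟨SimpleGraph.Coloring.mk (fun v => match v with
      | .inl u => c u
      | .inr a => if a.isSome then (0 : Fin 2) else 1) ?_⟩
    rintro (u | a) (v | b) h
    · exact c.valid h
    · exact h.elim
    · exact h.elim
    · have h : a.isSome ≠ b.isSome := h
      rcases ha : a.isSome with _ | _ <;> rcases hb : b.isSome with _ | _ <;> simp_all
  · apply le_antisymm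
    · apply SimpleGraph.maxDegree_le_of_forall_degree_le
      rintro (u | a)
      · have hs : (withStar G D).neighborFinset (.inl u) ⊆
            (G.neighborFinset u).image Sum.inl := by
          rintro (v | b) hv
          · rw [SimpleGraph.mem_neighborFinset] at hv
            rw [Finset.mem_image]
            exact ⟨v, (SimpleGraph.mem_neighborFinset _ _ _).2 hv, rfl⟩
          · rw [SimpleGraph.mem_neighborFinset] at hv
            exact hv.elim
        calc (withStar G D).degree (.inl u) = ((withStar G D).neighborFinset (.inl u)).card :=
              (SimpleGraph.card_neighborFinset_eq_degree _ _).symm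
          _ ≤ ((G.neighborFinset u).image Sum.inl).card := Finset.card_le_card hs
          _ ≤ (G.neighborFinset u).card := Finset.card_image_le
          _ = G.degree u := SimpleGraph.card_neighborFinset_eq_degree _ _
          _ ≤ G.maxDegree := G.degree_le_maxDegree u
          _ ≤ D := hle
      · rcases a with _ | i
        · have hs : (withStar G D).neighborFinset (.inr none) ⊆
              (Finset.univ : Finset (Fin D)).image (fun i => Sum.inr (some i)) := by
            rintro (v | b) hv
            · rw [SimpleGraph.mem_neighborFinset] at hv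
              exact hv.elim
            · rw [SimpleGraph.mem_neighborFinset] at hv
              rcases b with _ | b
              · exact absurd rfl hv
              · exact Finset.mem_image.2 ⟨b, Finset.mem_univ _, rfl⟩
          calc (withStar G D).degree (.inr none) =
                ((withStar G D).neighborFinset (.inr none)).card :=
                (SimpleGraph.card_neighborFinset_eq_degree _ _).symm
            _ ≤ _ := Finset.card_le_card hs
            _ ≤ (Finset.univ : Finset (Fin D)).card := Finset.card_image_le
            _ = D := by rw [Finset.card_univ, Fintype.card_fin]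
        · have hs : (withStar G D).neighborFinset (.inr (some i)) ⊆ {Sum.inr none} := by
            rintro (v | b) hv
            · rw [SimpleGraph.mem_neighborFinset] at hv
              exact hv.elim
            · rw [SimpleGraph.mem_neighborFinset] at hv
              rcases b with _ | b
              · exact Finset.mem_singleton_self _
              · exact absurd rfl hv
          calc (withStar G D).degree (.inr (some i)) =
                ((withStar G D).neighborFinset (.inr (some i))).card :=
                (SimpleGraph.card_neighborFinset_eq_degree _ _).symm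
            _ ≤ _ := Finset.card_le_card hs
            _ = 1 := Finset.card_singleton _
            _ ≤ D := hD1
    · refine le_trans ?_ ((withStar G D).degree_le_maxDegree (.inr none))
      rw [← SimpleGraph.card_neighborFinset_eq_degree]
      have hs : (Finset.univ : Finset (Fin D)).image
          (fun i => (Sum.inr (some i) : V ⊕ Option (Fin D))) ⊆
          (withStar G D).neighborFinset (.inr none) := by
        intro w hw
        obtain ⟨i, -, rfl⟩ := Finset.mem_image.1 hw
        rw [SimpleGraph.mem_neighborFinset]
        exact Bool.false_ne_true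
      have hc := Finset.card_le_card hs
      rwa [Finset.card_image_of_injective _ (by
        intro i j hij
        simpa using hij), Finset.card_univ, Fintype.card_fin] at hc
  · have hK : K < ch (withStar G D) := by
      by_contra hcon
      have hmem := Nat.sInf_mem (ch_set_nonempty (withStar G D))
      obtain ⟨f, hf1, hf2⟩ := hmem (fun v => match v with
        | .inl u => L u
        | .inr _ => Finset.range K) (by
          rintro (u | a)
          · exact (not_lt.1 hcon).trans (hL u).ge
          · exact (not_lt.1 hcon).trans (Finset.card_range K).ge)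
      exact hno ⟨fun u => f (.inl u), fun u => hf1 (.inl u),
        fun u v huv => hf2 (.inl u) (.inl v) huv⟩
    have h3 : ((C ^ 28 : ℕ) : ℝ) ≤ (K : ℝ) := by exact_mod_cast hK1
    have h4 : (K : ℝ) < (ch (withStar G D) : ℝ) := by exact_mod_cast hK
    push_cast at h3
    linarith

end Pool.Agent.Results.MP_4e8966_co.PolylogPower
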